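import Mathlib

/-!
# MP_773328_co, Q1: parity of the valid hook configuration numbers

With `F(z) = ∑_k (-1)^k z^{2k+1} / (k! (k+1)! (2k+1))` and
`∑_{n ≥ 1} a_n z^n / n! = -log(1 - F(z))`, the number `a_n` (`n ≥ 3`) is odd if and only if
`n + 1` is a power of `2`.
-/

namespace Pool.Agent.Results.MP_773328_co.OddIffPowerOfTwo

open PowerSeries Finset


/-- `F(z) = ∑_k (-1)^k z^{2k+1} / (k! (k+1)! (2k+1))`. -/
noncomputable def F : ℚ⟦X⟧ :=
  PowerSeries.mk fun n =>
    if n % 2 = 1 then
      (-1) ^ (n / 2) / ((n / 2).factorial * (n / 2 + 1).factorial * n : ℚ)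
    else 0

/-- `a n = n! [z^n] (-log(1 - F(z)))`. -/
noncomputable def a (n : ℕ) : ℚ := n.factorial * coeff n (-logOf (1 - F))

/-- the integers `n! [z^n] F`, i.e. `(-1)^k C_k` at `n = 2k+1`, `C_k` the Catalan numbers -/
def f (n : ℕ) : ℤ := if n % 2 = 1 then (-1) ^ (n / 2) * (catalan (n / 2) : ℤ) else 0

theorem f_zero : f 0 = 0 := rfl

theorem coeff_F (n : ℕ) : coeff n F * n.factorial = f n := by
  unfold F f
  rw [coeff_mk]
  split_ifs with h
  · obtain ⟨k, rfl⟩ : ∃ k, n = 2 * k + 1 := ⟨n / 2, by omega⟩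
    have e : (2 * k + 1) / 2 = k := by omega
    rw [e]
    have hc : ((k : ℚ) + 1) * catalan k = (Nat.centralBinom k : ℚ) := by
      exact_mod_cast succ_mul_catalan_eq_centralBinom k
    have hcb : (Nat.centralBinom k : ℚ) * (k.factorial * k.factorial) = (2 * k).factorial := by
      have := Nat.choose_mul_factorial_mul_factorial (n := 2 * k) (k := k) (by omega)
      have e2 : 2 * k - k = k := by omega
      rw [e2] at this
      rw [Nat.centralBinom]
      exact_mod_cast (by rw [← this]; ring)
    have hk1 : ((k + 1).factorial : ℚ) = (k + 1) * k.factorial := by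
      exact_mod_cast Nat.factorial_succ k
    have h2k1 : ((2 * k + 1).factorial : ℚ) = (2 * k + 1) * (2 * k).factorial := by
      exact_mod_cast Nat.factorial_succ (2 * k)
    have hkf : (k.factorial : ℚ) ≠ 0 := by exact_mod_cast k.factorial_ne_zero
    have hk10 : (k : ℚ) + 1 ≠ 0 := by positivity
    have h2 : (2 * (k : ℚ) + 1) ≠ 0 := by positivity
    rw [hk1, h2k1, ← hcb, ← hc]
    push_cast
    field_simp
  · simp

theorem constantCoeff_F : constantCoeff F = 0 := by
  rw [← coeff_zero_eq_constantCoeff_apply]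
  simp [F, coeff_mk]

/-- `(1 - F) A' = F'` -/
theorem ode : (1 - F) * d⁄dX ℚ (-logOf (1 - F)) = d⁄dX ℚ F := by
  have hs : HasSubst ((1 - F) - 1 : ℚ⟦X⟧) := by
    apply HasSubst.of_constantCoeff_zero'
    simp [constantCoeff_F]
  have h1 : (1 + X) * d⁄dX ℚ (log ℚ) = 1 := by
    rw [deriv_log]
    ext n
    rw [add_mul, one_mul, map_add, coeff_one]
    rcases n with _ | n
    · simp
    · rw [coeff_succ_X_mul, coeff_mk, coeff_mk]
      simp [pow_succ]
  have h2 := congrArg (fun g : ℚ⟦X⟧ => g.subst ((1 - F) - 1 : ℚ⟦X⟧)) h1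
  beta_reduce at h2
  rw [subst_mul hs, subst_add hs, subst_X hs] at h2
  have h3 : (1 : ℚ⟦X⟧).subst ((1 - F) - 1 : ℚ⟦X⟧) = (1 : ℚ⟦X⟧) := by
    rw [← coe_substAlgHom hs, map_one]
  rw [h3] at h2
  rw [map_neg, logOf_eq, derivative_subst hs]
  have h4 : d⁄dX ℚ ((1 - F) - 1 : ℚ⟦X⟧) = - d⁄dX ℚ F := by
    have : ((1 - F) - 1 : ℚ⟦X⟧) = -F := by ring
    rw [this, map_neg]
  rw [h4]
  have h5 : (1 : ℚ⟦X⟧) + (1 - F - 1) = 1 - F := by ring
  rw [h5] at h2
  calc (1 - F) * -((d⁄dX ℚ (log ℚ)).subst (1 - F - 1 : ℚ⟦X⟧) * -d⁄dX ℚ F)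
      = ((1 - F) * (d⁄dX ℚ (log ℚ)).subst (1 - F - 1 : ℚ⟦X⟧)) * d⁄dX ℚ F := by ring
    _ = d⁄dX ℚ F := by rw [h2, one_mul]

/-- the recursion for `a` -/
theorem a_rec (n : ℕ) :
    a (n + 1) = f (n + 1) + ∑ p ∈ antidiagonal n, (n.choose p.1 : ℚ) * f p.1 * a (p.2 + 1) := by
  have h := congrArg (coeff n) ode
  rw [sub_mul, one_mul, map_sub, coeff_mul] at h
  simp only [coeff_derivative] at h
  have hn : (n.factorial : ℚ) ≠ 0 := by exact_mod_cast n.factorial_ne_zero
  have h2 := congrArg (fun x : ℚ => (n.factorial : ℚ) * x) h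
  beta_reduce at h2
  rw [mul_sub, Finset.mul_sum] at h2
  have e1 : (n.factorial : ℚ) * (coeff (n + 1) (-logOf (1 - F)) * ((n : ℚ) + 1)) = a (n + 1) := by
    unfold a
    rw [Nat.factorial_succ]
    push_cast
    ring
  have e2 : (n.factorial : ℚ) * (coeff (n + 1) F * ((n : ℚ) + 1)) = f (n + 1) := by
    rw [← coeff_F, Nat.factorial_succ]
    push_cast
    ring
  rw [e1, e2] at h2
  have e3 : ∑ i ∈ antidiagonal n, (n.factorial : ℚ) *
      (coeff i.1 F * (coeff (i.2 + 1) (-logOf (1 - F)) * ((i.2 : ℚ) + 1))) =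
      ∑ p ∈ antidiagonal n, (n.choose p.1 : ℚ) * f p.1 * a (p.2 + 1) := by
    apply Finset.sum_congr rfl
    intro p hp
    rw [HasAntidiagonal.mem_antidiagonal] at hp
    have hc := Nat.choose_mul_factorial_mul_factorial (n := n) (k := p.1) (by omega)
    have hp2 : n - p.1 = p.2 := by omega
    rw [hp2] at hc
    have hcQ : (n.choose p.1 : ℚ) * p.1.factorial * p.2.factorial = n.factorial := by
      exact_mod_cast hc
    rw [← hcQ, ← coeff_F, a, Nat.factorial_succ]
    push_cast
    ring
  rw [e3] at h2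
  linarith

theorem a_zero : a 0 = 0 := by
  unfold a
  rw [map_neg, coeff_zero_eq_constantCoeff_apply, constantCoeff_logOf]
  · simp
  · simp [constantCoeff_F]

theorem a_int (n : ℕ) : a n ∈ (Int.castRingHom ℚ).range := by
  induction n using Nat.strong_induction_on with
  | _ n ih =>
    rcases n with _ | n
    · rw [a_zero]; exact zero_mem _
    · rw [a_rec]
      refine add_mem ⟨f (n + 1), rfl⟩ (sum_mem ?_)
      intro p hp
      rw [HasAntidiagonal.mem_antidiagonal] at hp
      rcases Nat.eq_zero_or_pos p.1 with h0 | h0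
      · rw [h0, f_zero]
        simp [zero_mem]
      · exact mul_mem (mul_mem ⟨(n.choose p.1 : ℤ), by simp⟩ ⟨f p.1, rfl⟩) (ih _ (by omega))

/-! ### Parities -/

open scoped Classical in
/-- parity of the Catalan numbers -/
theorem catalan_parity (n : ℕ) :
    (catalan n : ZMod 2) = if ∃ k, n + 1 = 2 ^ k then 1 else 0 := by
  induction n using Nat.strong_induction_on with
  | _ n ih =>
    rcases n with _ | n
    · rw [if_pos ⟨0, rfl⟩]; simp
    · rw [catalan_succ']
      push_cast
      rw [← Finset.sum_filter_add_sum_filter_not (antidiagonal n) (fun p => p.1 = p.2)]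
      have h2 : ∑ p ∈ (antidiagonal n).filter (fun p => ¬ p.1 = p.2),
          (catalan p.1 : ZMod 2) * (catalan p.2 : ZMod 2) = 0 := by
        apply Finset.sum_involution (fun p _ => p.swap)
        · intro p _
          simp only [Prod.fst_swap, Prod.snd_swap]
          rw [mul_comm (catalan p.2 : ZMod 2)]
          have : ∀ x : ZMod 2, x + x = 0 := by decide
          exact this _
        · intro p hp _ hps
          rw [mem_filter] at hp
          exact hp.2 (congrArg Prod.snd hps)
        · intro p _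
          exact Prod.swap_swap p
        · intro p hp
          rw [mem_filter, HasAntidiagonal.mem_antidiagonal] at hp ⊢
          simp only [Prod.fst_swap, Prod.snd_swap]
          exact ⟨by omega, fun h => hp.2 h.symm⟩
      rw [h2, add_zero]
      rcases Nat.even_or_odd' n with ⟨m, hm | hm⟩
      · have hset : (antidiagonal n).filter (fun p => p.1 = p.2) = {(m, m)} := by
          ext ⟨x, y⟩
          simp only [mem_filter, HasAntidiagonal.mem_antidiagonal, mem_singleton, Prod.mk.injEq]
          omega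
        rw [hset, sum_singleton, ih m (by omega)]
        have hiff : (∃ k, m + 1 = 2 ^ k) ↔ ∃ k, n + 1 + 1 = 2 ^ k := by
          constructor
          · rintro ⟨k, hk⟩
            exact ⟨k + 1, by rw [pow_succ, ← hk]; omega⟩
          · rintro ⟨k, hk⟩
            rcases k with _ | k
            · simp at hk
            · exact ⟨k, by rw [pow_succ] at hk; omega⟩
        by_cases h : ∃ k, m + 1 = 2 ^ k
        · rw [if_pos h, if_pos (hiff.mp h)]; rfl
        · rw [if_neg h, if_neg (fun h' => h (hiff.mpr h'))]; rfl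
      · have hset : (antidiagonal n).filter (fun p => p.1 = p.2) = ∅ := by
          ext ⟨x, y⟩
          simp only [mem_filter, HasAntidiagonal.mem_antidiagonal, notMem_empty, iff_false]
          omega
        rw [hset, sum_empty, if_neg]
        rintro ⟨k, hk⟩
        rcases k with _ | k
        · simp at hk
        · rw [pow_succ] at hk; omega

open scoped Classical in
/-- parity of `f n` -/
noncomputable def fb (n : ℕ) : ZMod 2 := if n ≠ 0 ∧ ∃ k, n + 1 = 2 ^ k then 1 else 0

/-- expected parity of `a n` -/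
noncomputable def ab (n : ℕ) : ZMod 2 := fb n + if n = 2 then 1 else 0

theorem f_parity (n : ℕ) : (f n : ZMod 2) = fb n := by
  unfold f fb
  split_ifs with h1 h2 h2
  · obtain ⟨m, rfl⟩ : ∃ m, n = 2 * m + 1 := ⟨n / 2, by omega⟩
    have e : (2 * m + 1) / 2 = m := by omega
    rw [e]
    push_cast
    rw [catalan_parity, if_pos]
    · have : (-1 : ZMod 2) = 1 := by decide
      rw [this, one_pow, one_mul]
    · obtain ⟨_, k, hk⟩ := h2
      rcases k with _ | k
      · simp at hk
      · exact ⟨k, by rw [pow_succ] at hk; omega⟩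
  · obtain ⟨m, rfl⟩ : ∃ m, n = 2 * m + 1 := ⟨n / 2, by omega⟩
    have e : (2 * m + 1) / 2 = m := by omega
    rw [e]
    push_cast
    rw [catalan_parity, if_neg, mul_zero]
    rintro ⟨k, hk⟩
    exact h2 ⟨by omega, k + 1, by rw [pow_succ, ← hk]; ring⟩
  · exfalso
    obtain ⟨hn, k, hk⟩ := h2
    rcases k with _ | k
    · simp at hk; omega
    · rw [pow_succ] at hk; omega
  · simp

theorem fb_ne_zero {n : ℕ} (h : fb n ≠ 0) : n ≠ 0 ∧ ∃ k, n + 1 = 2 ^ (k + 1) := by
  unfold fb at h
  by_cases hc : n ≠ 0 ∧ ∃ k, n + 1 = 2 ^ k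
  · obtain ⟨hn, k, hk⟩ := hc
    rcases k with _ | k
    · simp at hk; omega
    · exact ⟨hn, k, hk⟩
  · rw [if_neg hc] at h; exact absurd rfl h

theorem choose_even_of_odd (M i : ℕ) (hi : i % 2 = 1) :
    (((2 * M).choose i : ℕ) : ZMod 2) = 0 := by
  rw [ZMod.natCast_eq_zero_iff_even]
  rcases Nat.eq_zero_or_pos M with rfl | hM
  · rw [mul_zero, Nat.choose_eq_zero_of_lt (by omega)]; exact Even.zero
  · obtain ⟨j, rfl⟩ : ∃ j, i = j + 1 := ⟨i - 1, by omega⟩
    obtain ⟨N, hN⟩ : ∃ N, 2 * M = N + 1 := ⟨2 * M - 1, by omega⟩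
    have h := Nat.add_one_mul_choose_eq N j
    rw [← hN] at h
    have hev : Even ((2 * M).choose (j + 1) * (j + 1)) := by
      rw [← h]
      exact Even.mul_right (even_two_mul M) _
    rcases Nat.even_mul.mp hev with h1 | h1
    · exact h1
    · rw [Nat.even_iff] at h1; omega

/-- the convolution identity modulo `2` -/
theorem conv (n : ℕ) :
    ∑ p ∈ antidiagonal n, (n.choose p.1 : ZMod 2) * fb p.1 * ab (p.2 + 1) =
      if n = 1 then 1 else 0 := by
  have h2 : ∀ x : ZMod 2, x + x = 0 := by decide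
  unfold ab
  simp only [mul_add, Finset.sum_add_distrib]
  -- second sum
  have hsecond : ∑ p ∈ antidiagonal n, (n.choose p.1 : ZMod 2) * fb p.1 *
      (if p.2 + 1 = 2 then 1 else 0) = 0 := by
    apply Finset.sum_eq_zero
    rintro ⟨x, y⟩ hp
    rw [HasAntidiagonal.mem_antidiagonal] at hp
    simp only at hp ⊢
    split_ifs with hy
    · have hy1 : y = 1 := by omega
      subst hy1
      by_cases hf : fb x = 0
      · rw [hf]; simp
      · obtain ⟨hx, k, hk⟩ := fb_ne_zero hf
        have hn : n = 2 ^ (k + 1) := by omega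
        have : n.choose x = n := by
          rw [← hp]
          simp
        rw [this]
        have : ((n : ℕ) : ZMod 2) = 0 := by
          rw [ZMod.natCast_eq_zero_iff_even, hn, pow_succ]
          exact ⟨2 ^ k, by ring⟩
        rw [this]; simp
    · simp
  rw [hsecond, add_zero]
  by_cases hn1 : n = 1
  · subst hn1
    rw [if_pos rfl]
    have h01 : fb 0 = 0 := by simp [fb]
    have h11 : fb 1 = 1 := by
      unfold fb
      rw [if_pos ⟨by norm_num, 1, by norm_num⟩]
    rw [Finset.Nat.antidiagonal_succ]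
    simp [h01, h11]
  · rw [if_neg hn1]
    -- drop i = 0 and use the involution i ↦ n + 1 - i
    rw [Finset.Nat.sum_antidiagonal_eq_sum_range_succ
      (fun i j => (n.choose i : ZMod 2) * fb i * fb (j + 1)) n]
    have h0 : fb 0 = 0 := by simp [fb]
    have hI : ∑ k ∈ range n.succ, (n.choose k : ZMod 2) * fb k * fb (n - k + 1) =
        ∑ k ∈ Finset.Icc 1 n, (n.choose k : ZMod 2) * fb k * fb (n + 1 - k) := by
      rw [Finset.sum_range_succ']
      rw [h0]
      simp only [mul_zero, zero_mul, add_zero]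
      rw [Finset.range_eq_Ico, Finset.sum_Ico_add' (fun k => (n.choose k : ZMod 2) * fb k *
        fb (n - k + 1)) 0 n 1]
      have : Finset.Ico (0 + 1) (n + 1) = Finset.Icc 1 n := by
        ext x; simp only [mem_Ico, mem_Icc]; omega
      rw [this]
      apply Finset.sum_congr rfl
      intro k hk
      rw [mem_Icc] at hk
      have : n - k + 1 = n + 1 - k := by omega
      rw [this]
    rw [hI]
    apply Finset.sum_involution (fun k _ => n + 1 - k)
    · intro k hk
      rw [mem_Icc] at hk
      have e1 : n + 1 - (n + 1 - k) = k := by omega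
      rw [e1]
      have e2 : n.choose (n + 1 - k) = n.choose (k - 1) := by
        rw [← Nat.choose_symm (show k - 1 ≤ n by omega)]
        congr 1
        omega
      rw [e2]
      have e3 : (n.choose k : ZMod 2) * fb k * fb (n + 1 - k) +
          (n.choose (k - 1) : ZMod 2) * fb (n + 1 - k) * fb k =
          (((n + 1).choose k : ℕ) : ZMod 2) * (fb k * fb (n + 1 - k)) := by
        have : (n + 1).choose k = n.choose (k - 1) + n.choose k := by
          obtain ⟨j, rfl⟩ : ∃ j, k = j + 1 := ⟨k - 1, by omega⟩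
          simp [Nat.choose_succ_succ]
        rw [this]; push_cast; ring
      rw [e3]
      by_cases hf1 : fb k = 0
      · rw [hf1]; simp
      by_cases hf2 : fb (n + 1 - k) = 0
      · rw [hf2]; simp
      obtain ⟨_, k1, hk1⟩ := fb_ne_zero hf1
      obtain ⟨_, k2, hk2⟩ := fb_ne_zero hf2
      rw [pow_succ] at hk1 hk2
      obtain ⟨M, hM⟩ : ∃ M, n + 1 = 2 * M := ⟨(n + 1) / 2, by omega⟩
      rw [hM, choose_even_of_odd M k (by omega), zero_mul]
    · intro k hk hne heq
      rw [mem_Icc] at hk
      apply hne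
      have hM : n + 1 = 2 * k := by omega
      rw [heq]
      by_cases hf1 : fb k = 0
      · rw [hf1]; simp
      obtain ⟨_, k1, hk1⟩ := fb_ne_zero hf1
      have hcb : 2 * n.choose k = Nat.centralBinom k := by
        rw [Nat.centralBinom, ← hM]
        have e2 : n.choose k = n.choose (k - 1) := by
          rw [← Nat.choose_symm (show k - 1 ≤ n by omega)]
          congr 1
          omega
        have : (n + 1).choose k = n.choose (k - 1) + n.choose k := by
          obtain ⟨j, rfl⟩ : ∃ j, k = j + 1 := ⟨k - 1, by omega⟩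
          simp [Nat.choose_succ_succ]
        omega
      rw [← succ_mul_catalan_eq_centralBinom, hk1] at hcb
      rcases k1 with _ | k1
      · exfalso
        have : k = 1 := by simpa using hk1
        omega
      · have : n.choose k = 2 * (2 ^ k1 * catalan k) := by
          rw [pow_succ, pow_succ] at hcb
          nlinarith
        have : ((n.choose k : ℕ) : ZMod 2) = 0 := by
          rw [ZMod.natCast_eq_zero_iff_even, this]
          exact even_two_mul _
        rw [this]; simp
    · intro k hk
      rw [mem_Icc] at hk ⊢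
      omega
    · intro k hk
      rw [mem_Icc] at hk
      omega

theorem main (b : ℕ → ℤ) (hb : ∀ n, a n = b n) (n : ℕ) : (b n : ZMod 2) = ab n := by
  induction n using Nat.strong_induction_on with
  | _ n ih =>
    rcases n with _ | n
    · have : b 0 = 0 := by
        have := hb 0
        rw [a_zero] at this
        exact_mod_cast this.symm
      rw [this]
      simp [ab, fb]
    · have hrec : b (n + 1) = f (n + 1) + ∑ p ∈ antidiagonal n,
          (n.choose p.1 : ℤ) * f p.1 * b (p.2 + 1) := by
        have := a_rec n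
        simp only [hb] at this
        exact_mod_cast this
      rw [hrec]
      push_cast
      have hsum : ∑ p ∈ antidiagonal n, (n.choose p.1 : ZMod 2) * (f p.1 : ZMod 2) *
          (b (p.2 + 1) : ZMod 2) =
          ∑ p ∈ antidiagonal n, (n.choose p.1 : ZMod 2) * fb p.1 * ab (p.2 + 1) := by
        apply Finset.sum_congr rfl
        intro p hp
        rw [HasAntidiagonal.mem_antidiagonal] at hp
        rw [f_parity]
        rcases Nat.eq_zero_or_pos p.1 with h0 | h0
        · have h01 : fb 0 = 0 := by simp [fb]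
          rw [h0, h01]; simp
        · rw [ih (p.2 + 1) (by omega)]
      rw [hsum, conv, f_parity, ab]
      congr 1
      by_cases hn : n = 1
      · subst hn; simp
      · rw [if_neg hn, if_neg (by omega)]

/-- **Positive answer to Q1.**  Let `a n = n! [z^n] (-log(1 - F(z)))`.  Every `a n` is an integer,
and for every `n ≥ 3` this integer is odd if and only if `n + 1` is a power of `2`. -/
theorem result :
    ∃ b : ℕ → ℤ, (∀ n, a n = b n) ∧ ∀ n, 3 ≤ n → (Odd (b n) ↔ ∃ k : ℕ, n + 1 = 2 ^ k) := by
  choose b hb using a_int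
  have hb' : ∀ n, a n = b n := fun n => (hb n).symm
  refine ⟨b, hb', fun n hn => ?_⟩
  have h1 : Odd (b n) ↔ (b n : ZMod 2) = 1 := by
    rw [← Int.not_even_iff_odd, ← ZMod.intCast_eq_zero_iff_even]
    have : ∀ x : ZMod 2, ¬ x = 0 ↔ x = 1 := by decide
    exact this _
  rw [h1, main b hb', ab, fb, if_neg (show ¬ n = 2 by omega), add_zero]
  by_cases h : ∃ k : ℕ, n + 1 = 2 ^ k
  · rw [if_pos ⟨by omega, h⟩]; simp [h]
  · rw [if_neg (fun hc => h hc.2)]; simp [h]

end Pool.Agent.Results.MP_773328_co.OddIffPowerOfTwo
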